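import Mathlib

set_option autoImplicit false

namespace Pool.Agent.H1.Ray

open MvPolynomial

variable {m : ℕ}

/-- The multiaffine polynomial `Z = ∑_S w(S) y^S`. -/
noncomputable def poly (w : Finset (Fin m) → ℝ) : MvPolynomial (Fin m) ℝ :=
  ∑ S : Finset (Fin m), C (w S) * ∏ e ∈ S, X e

/-- `Z^e = Z|_{y_e = 0}`. -/
noncomputable def del (e : Fin m) (Z : MvPolynomial (Fin m) ℝ) : MvPolynomial (Fin m) ℝ :=
  aeval (fun i => if i = e then (0 : MvPolynomial (Fin m) ℝ) else X i) Z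

/-- `Z_e = ∂Z/∂y_e`. -/
noncomputable def con (e : Fin m) (Z : MvPolynomial (Fin m) ℝ) : MvPolynomial (Fin m) ℝ :=
  pderiv e Z

/-- The Rayleigh difference `ΔZ{e,f} = Z_e^f Z_f^e - Z_{ef} Z^{ef}`. -/
noncomputable def rayleigh (Z : MvPolynomial (Fin m) ℝ) (e f : Fin m) : MvPolynomial (Fin m) ℝ :=
  del f (con e Z) * del e (con f Z) - con f (con e Z) * del f (del e Z)

/-- Hypotheses 1-3 on the multiaffine polynomial with weights `w`. -/
structure Hyp (w : Finset (Fin m) → ℝ) : Prop where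
  nonneg : ∀ S, 0 ≤ w S
  mono : ∀ S T : Finset (Fin m), T ⊆ S → w S ≤ w T
  ray : ∀ e f : Fin m, e ≠ f → ∀ y : Fin m → ℝ, (∀ i, 0 < y i) →
    0 ≤ eval y (rayleigh (poly w) e f)

/-- The symmetrization `Z + τ_{gh}(Z)`; `π(Z)(y_1,…,y_m) = Z(y_{π(1)},…,y_{π(m)})` is `rename π Z`. -/
noncomputable def symm (Z : MvPolynomial (Fin m) ℝ) (g h : Fin m) : MvPolynomial (Fin m) ℝ :=
  Z + rename (Equiv.swap g h) Z

end Pool.Agent.H1.Ray
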