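import Mathlib
import Pool.Agent.H1.Ray.Defs

set_option autoImplicit false

namespace Pool.Agent.H1.Ray

open MvPolynomial

/-- the weights, as natural numbers, indexed by the binary code of `S` -/
def wN (S : Finset (Fin 4)) : ℕ :=
  [6, 4, 6, 3, 6, 3, 4, 2, 6, 2, 3, 1, 4, 1, 2, 0].getD (∑ i ∈ S, 2 ^ i.val) 0

noncomputable def w (S : Finset (Fin 4)) : ℝ := (wN S : ℝ)

theorem wN_mono : ∀ S T : Finset (Fin 4), T ⊆ S → wN S ≤ wN T := by decide +kernel

noncomputable def Z4 : MvPolynomial (Fin 4) ℝ :=
  C 6 + C 4 * X 0 + C 6 * X 1 + C 3 * (X 0 * X 1) + C 6 * X 2 + C 3 * (X 0 * X 2)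
    + C 4 * (X 1 * X 2) + C 2 * (X 0 * (X 1 * X 2)) + C 6 * X 3 + C 2 * (X 0 * X 3)
    + C 3 * (X 1 * X 3) + C 1 * (X 0 * (X 1 * X 3)) + C 4 * (X 2 * X 3)
    + C 1 * (X 0 * (X 2 * X 3)) + C 2 * (X 1 * (X 2 * X 3))

theorem univ_eq : (Finset.univ : Finset (Finset (Fin 4))) =
    {∅, {0}, {1}, {0, 1}, {2}, {0, 2}, {1, 2}, {0, 1, 2}, {3}, {0, 3}, {1, 3}, {0, 1, 3},
      {2, 3}, {0, 2, 3}, {1, 2, 3}, {0, 1, 2, 3}} := by decide +kernel

theorem poly_w : poly w = Z4 := by
  unfold poly
  rw [univ_eq]
  repeat rw [Finset.sum_insert (by decide)]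
  rw [Finset.sum_singleton]
  have h0 : w ∅ = 6 := by have : wN ∅ = 6 := by decide
                          simp [w, this]
  have h1 : w {0} = 4 := by have : wN {0} = 4 := by decide
                            simp [w, this]
  have h2 : w {1} = 6 := by have : wN {1} = 6 := by decide
                            simp [w, this]
  have h3 : w {0, 1} = 3 := by have : wN {0, 1} = 3 := by decide
                               simp [w, this]
  have h4 : w {2} = 6 := by have : wN {2} = 6 := by decide
                            simp [w, this]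
  have h5 : w {0, 2} = 3 := by have : wN {0, 2} = 3 := by decide
                               simp [w, this]
  have h6 : w {1, 2} = 4 := by have : wN {1, 2} = 4 := by decide
                               simp [w, this]
  have h7 : w {0, 1, 2} = 2 := by have : wN {0, 1, 2} = 2 := by decide
                                  simp [w, this]
  have h8 : w {3} = 6 := by have : wN {3} = 6 := by decide
                            simp [w, this]
  have h9 : w {0, 3} = 2 := by have : wN {0, 3} = 2 := by decide
                               simp [w, this]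
  have h10 : w {1, 3} = 3 := by have : wN {1, 3} = 3 := by decide
                                simp [w, this]
  have h11 : w {0, 1, 3} = 1 := by have : wN {0, 1, 3} = 1 := by decide
                                   simp [w, this]
  have h12 : w {2, 3} = 4 := by have : wN {2, 3} = 4 := by decide
                                simp [w, this]
  have h13 : w {0, 2, 3} = 1 := by have : wN {0, 2, 3} = 1 := by decide
                                   simp [w, this]
  have h14 : w {1, 2, 3} = 2 := by have : wN {1, 2, 3} = 2 := by decide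
                                   simp [w, this]
  have h15 : w {0, 1, 2, 3} = 0 := by have : wN {0, 1, 2, 3} = 0 := by decide
                                      simp [w, this]
  rw [h0, h1, h2, h3, h4, h5, h6, h7, h8, h9, h10, h11, h12, h13, h14, h15]
  unfold Z4
  repeat rw [Finset.prod_insert (by decide)]
  simp only [Finset.prod_singleton, Finset.prod_empty, mul_one, C_0, zero_mul, add_zero]
  ring

theorem ray_eval (e f : Fin 4) (h : e ≠ f) (y : Fin 4 → ℝ) (hy : ∀ i, 0 < y i) :
    0 ≤ eval y (rayleigh Z4 e f) := by
  have y0 := hy 0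
  have y1 := hy 1
  have y2 := hy 2
  have y3 := hy 3
  fin_cases e <;> fin_cases f <;> first | exact absurd rfl h | skip
  all_goals
    simp [rayleigh, del, con, Z4, pderiv_X, Pi.single_apply]
    rw [← sub_nonneg]
    ring_nf
    positivity


theorem hyp_w : Hyp w where
  nonneg S := by unfold w; positivity
  mono S T h := by unfold w; exact_mod_cast wN_mono S T h
  ray e f h y hy := by rw [poly_w]; exact ray_eval e f h y hy

/-- the point `(1, 1, 1/100, 100)` -/
noncomputable def pt : Fin 4 → ℝ := ![1, 1, 1 / 100, 100]

theorem pt_pos : ∀ i, 0 < pt i := by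
  intro i
  fin_cases i <;> simp [pt]

theorem neg_val : eval pt (rayleigh (symm (poly w) 2 3) 0 1) < 0 := by
  rw [poly_w]
  have s0 : (Equiv.swap (2 : Fin 4) 3) 0 = 0 := by decide
  have s1 : (Equiv.swap (2 : Fin 4) 3) 1 = 1 := by decide
  have s2 : (Equiv.swap (2 : Fin 4) 3) 2 = 3 := by decide
  have s3 : (Equiv.swap (2 : Fin 4) 3) 3 = 2 := by decide
  simp [rayleigh, symm, del, con, Z4, pderiv_X, Pi.single_apply, rename_X, s0, s1, pt]
  norm_num

end Pool.Agent.H1.Ray
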